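import Pool.Agent.Helper38.RS.Goals3

/-!
# Project RS, packet RS-DG1

The primes of a number field whose norm is not a prime number contribute a bounded sum.
-/

namespace Pool.Agent.Helper88.RS

open NumberField Module IsDedekindDomain
open Pool.Agent.Helper38.RS

section

variable {F : Type} [Field F] [NumberField F]

/-- The prime number below `v`. -/
noncomputable def lp (v : HeightOneSpectrum (𝓞 F)) : ℕ :=
  Ideal.absNorm (Ideal.under ℤ v.asIdeal)

theorem lp_prime (v : HeightOneSpectrum (𝓞 F)) : (lp v).Prime := by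
  have : v.asIdeal.IsPrime := v.isPrime
  have : NeZero v.asIdeal := ⟨v.ne_bot⟩
  exact Nat.absNorm_under_prime v.asIdeal

theorem lp_liesOver (v : HeightOneSpectrum (𝓞 F)) :
    v.asIdeal.LiesOver (Ideal.span {(lp v : ℤ)}) :=
  Int.liesOver_span_absNorm v.asIdeal

theorem sq_le_norm (v : HeightOneSpectrum (𝓞 F))
    (hv : ¬ (Ideal.absNorm v.asIdeal).Prime) : (lp v) ^ 2 ≤ Ideal.absNorm v.asIdeal := by
  have := v.isPrime
  have := lp_liesOver v
  obtain ⟨f, hN⟩ : ∃ f : ℕ, Ideal.absNorm v.asIdeal = lp v ^ f :=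
    ⟨_, Ideal.absNorm_eq_pow_inertiaDeg' v.asIdeal (lp_prime v)⟩
  have h1 : Ideal.absNorm v.asIdeal ≠ 1 := by
    intro h
    rw [Ideal.absNorm_eq_one_iff] at h
    exact v.isPrime.ne_top h
  have hf2 : 2 ≤ f := by
    rcases Nat.lt_or_ge f 2 with h | h
    · exfalso
      interval_cases f
      · rw [pow_zero] at hN
        exact h1 hN
      · rw [pow_one] at hN
        exact hv (hN ▸ lp_prime v)
    · exact h
  rw [hN]
  exact Nat.pow_le_pow_right (lp_prime v).pos hf2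

theorem term_le (v : HeightOneSpectrum (𝓞 F))
    (hv : ¬ (Ideal.absNorm v.asIdeal).Prime) (s : ℝ) (hs : 1 < s) :
    (Ideal.absNorm v.asIdeal : ℝ) ^ (-s) ≤ 1 / (lp v : ℝ) ^ 2 := by
  have h := sq_le_norm v hv
  have hp := (lp_prime v).two_le
  have hpR : (2 : ℝ) ≤ (lp v : ℝ) := by exact_mod_cast hp
  have hR : ((lp v : ℝ)) ^ 2 ≤ (Ideal.absNorm v.asIdeal : ℝ) := by exact_mod_cast h
  have hpos : (0 : ℝ) < (lp v : ℝ) ^ 2 := by positivity
  have hN1 : (1 : ℝ) ≤ (Ideal.absNorm v.asIdeal : ℝ) := by nlinarith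
  calc (Ideal.absNorm v.asIdeal : ℝ) ^ (-s) ≤ (Ideal.absNorm v.asIdeal : ℝ) ^ (-1 : ℝ) :=
        Real.rpow_le_rpow_of_exponent_le hN1 (by linarith)
    _ = 1 / (Ideal.absNorm v.asIdeal : ℝ) := by
        rw [Real.rpow_neg_one, one_div]
    _ ≤ 1 / (lp v : ℝ) ^ 2 := one_div_le_one_div_of_le hpos hR

theorem card_fibre (T : Finset (HeightOneSpectrum (𝓞 F))) (p : ℕ) :
    (T.filter (fun v => lp v = p)).card ≤ finrank ℚ F := by
  classical
  rcases (T.filter (fun v => lp v = p)).eq_empty_or_nonempty with h | ⟨w, hw⟩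
  · rw [h, Finset.card_empty]
    exact Nat.zero_le _
  · have hp : p.Prime := by
      rw [← (Finset.mem_filter.mp hw).2]
      exact lp_prime w
    have : Fact p.Prime := ⟨hp⟩
    have : (Ideal.span {(p : ℤ)}).IsMaximal := Int.ideal_span_isMaximal_of_prime p
    have hp0 : (Ideal.span {(p : ℤ)}) ≠ ⊥ := by
      rw [Ne, Ideal.span_singleton_eq_bot]
      exact_mod_cast hp.ne_zero
    have h1 : (IsDedekindDomain.primesOverFinset (Ideal.span {(p : ℤ)}) (𝓞 F)).card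
        ≤ finrank ℚ F :=
      Ideal.card_primesOverFinset_le_finrank (S := 𝓞 F) (K := ℚ) (L := F) hp0
    refine le_trans ?_ h1
    refine Finset.card_le_card_of_injOn (fun v => v.asIdeal) ?_ ?_
    · intro v hv
      have hv' : lp v = p := (Finset.mem_filter.mp (Finset.mem_coe.mp hv)).2
      refine Finset.mem_coe.mpr ((IsDedekindDomain.mem_primesOverFinset_iff hp0 (𝓞 F)).mpr ?_)
      refine ⟨v.isPrime, ?_⟩
      rw [← hv']
      exact lp_liesOver v
    · intro v _ w _ hvw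
      exact HeightOneSpectrum.ext hvw

theorem fin_sum_le (T : Finset (HeightOneSpectrum (𝓞 F))) :
    ∑ v ∈ T, 1 / (lp v : ℝ) ^ 2 ≤ (finrank ℚ F : ℝ) * ∑' n : ℕ, 1 / (n : ℝ) ^ 2 := by
  classical
  have hsum : Summable (fun n : ℕ => 1 / (n : ℝ) ^ 2) :=
    Real.summable_one_div_nat_pow.mpr (by norm_num)
  have h1 : ∑ v ∈ T, 1 / (lp v : ℝ) ^ 2
      = ∑ p ∈ T.image lp, ∑ v ∈ T.filter (fun v => lp v = p), 1 / (lp v : ℝ) ^ 2 :=
    (Finset.sum_fiberwise_of_maps_to (fun v hv => Finset.mem_image_of_mem lp hv) _).symm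
  have h2 : ∀ p ∈ T.image lp, ∑ v ∈ T.filter (fun v => lp v = p), 1 / (lp v : ℝ) ^ 2
      ≤ (finrank ℚ F : ℝ) * (1 / (p : ℝ) ^ 2) := by
    intro p _
    have h3 : ∑ v ∈ T.filter (fun v => lp v = p), 1 / (lp v : ℝ) ^ 2
        = ∑ v ∈ T.filter (fun v => lp v = p), 1 / (p : ℝ) ^ 2 := by
      refine Finset.sum_congr rfl fun v hv => ?_
      rw [(Finset.mem_filter.mp hv).2]
    rw [h3, Finset.sum_const, nsmul_eq_mul]
    refine mul_le_mul_of_nonneg_right ?_ (by positivity)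
    exact_mod_cast card_fibre T p
  rw [h1]
  refine (Finset.sum_le_sum h2).trans ?_
  rw [← Finset.mul_sum]
  refine mul_le_mul_of_nonneg_left ?_ (by positivity)
  exact hsum.sum_le_tsum _ (fun n _ => by positivity)

end

/-- Packet RS-DG1. -/
theorem s_dg1 : Pool.Agent.Helper38.RS.S_DG1 := by
  intro F _ _
  refine ⟨(finrank ℚ F : ℝ) * ∑' n : ℕ, 1 / (n : ℝ) ^ 2, fun s hs1 hs2 => ?_⟩
  have hC : 0 ≤ (finrank ℚ F : ℝ) * ∑' n : ℕ, 1 / (n : ℝ) ^ 2 :=
    mul_nonneg (by positivity) (tsum_nonneg fun n => by positivity)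
  unfold pz
  refine tsum_le_of_sum_le' hC fun T => ?_
  classical
  have h1 : ∑ v ∈ T, (Ideal.absNorm v.1.asIdeal : ℝ) ^ (-s) ≤ ∑ v ∈ T, 1 / (lp v.1 : ℝ) ^ 2 :=
    Finset.sum_le_sum fun v _ => term_le v.1 v.2 s hs1
  refine h1.trans ?_
  have h2 : ∑ v ∈ T, 1 / (lp v.1 : ℝ) ^ 2
      = ∑ v ∈ T.map (Function.Embedding.subtype _), 1 / (lp v : ℝ) ^ 2 := by
    rw [Finset.sum_map]
    rfl
  rw [h2]
  exact fin_sum_le _

end Pool.Agent.Helper88.RS
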